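import Pool.Agent.R658.SIEx

set_option autoImplicit false

/-!
An `E`-unitary finitely presented special inverse monoid `S` with right reversible prefix monoid
such that `S/σ` has decidable and `S` has undecidable word problem.
-/

namespace Pool.Agent.Results.MP_ff4305_al.RightReversible

open Pool.Agent.R658

/-- There are a finite alphabet `X = {x₁, …, xₙ}` and a finite set `R` of words over `X ∪ X⁻¹` such
that the special inverse monoid `S = Inv⟨X ∣ w = 1 (w ∈ R)⟩` is `E`-unitary, its prefix monoid is
right reversible, `S/σ` has decidable word problem, and the word problem of `S` is undecidable. -/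
theorem result :
    ∃ (n : ℕ) (R : Finset (List (Fin n × Bool))),
      EUnitary (SpInv (R : Set (List (Fin n × Bool)))) ∧
      PrefixMonoidRightReversible (SpInv (R : Set (List (Fin n × Bool)))) ∧
      ComputablePred (fun p : List (Fin n × Bool) × List (Fin n × Bool) =>
        SigmaRel (ofWord (R : Set (List (Fin n × Bool))) p.1)
          (ofWord (R : Set (List (Fin n × Bool))) p.2)) ∧
      ¬ ComputablePred (fun p : List (Fin n × Bool) × List (Fin n × Bool) =>
        ofWord (R : Set (List (Fin n × Bool))) p.1 =
          ofWord (R : Set (List (Fin n × Bool))) p.2) := by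
  obtain ⟨m, J, hJ, r, R0, W, hW, hu, h0, h1, h2⟩ := exists_data
  obtain ⟨n, ⟨e⟩⟩ := Finite.exists_equiv_fin (Gn m J)
  refine ⟨n, (rlS_finite e r).toFinset, ?_⟩
  rw [Set.Finite.coe_toFinset]
  refine ⟨eunitary e r, fun s s' _ _ => reversible e r s s', ?_, ?_⟩
  · refine (group_wp e r).of_eq fun p => ?_
    rw [sigma_iff]
    have : ∀ u : List (Fin n × Bool), evS e r (ofWord (RlS e r) u) = (u.map (le e r)).prod :=
      fun u => ev_ofList e r u
    rw [this, this]
  · intro hc
    apply hu
    have hf : Computable (fun k : ℕ => ((tw e (W k) ++ linv (tw e (W k)), []) :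
        List (Fin n × Bool) × List (Fin n × Bool))) := (tw_computable e).comp hW
    refine ComputablePred.computable_of_manyOneReducible ⟨_, hf, fun k => ?_⟩ hc
    exact (main_iff e r h0 h1 h2 (W k)).symm

end Pool.Agent.Results.MP_ff4305_al.RightReversible
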